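import Pool.Agent.W761.CP.Defs

/-!
# Weak gradients, the Dirichlet form and integration by parts
-/

set_option autoImplicit false

open MeasureTheory
open scoped ENNReal FourierTransform SchwartzMap InnerProductSpace

namespace Pool.Agent.W63.CP
open Pool.Agent.Helper209.CX (Ed L2d InH1 dirichlet IsHu)
open Pool.Agent.W761.CP

noncomputable section

theorem inner_F {d : ℕ} (a b : L2d d) : ⟪(𝓕 a : L2d d), (𝓕 b : L2d d)⟫_ℂ = ⟪a, b⟫_ℂ :=
  MeasureTheory.Lp.inner_fourier_eq a b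

theorem abs_coord_le {d : ℕ} (ξ : Ed d) (k : Fin d) : |ξ k| ≤ ‖ξ‖ := by
  have := PiLp.norm_apply_le ξ k
  rwa [Real.norm_eq_abs] at this

theorem norm_le_sum {d : ℕ} (ξ : Ed d) : ‖ξ‖ ≤ ∑ k, |ξ k| := by
  rw [EuclideanSpace.norm_eq]
  have h0 : 0 ≤ ∑ k, |ξ k| := Finset.sum_nonneg fun k _ => abs_nonneg _
  rw [← Real.sqrt_sq h0]
  apply Real.sqrt_le_sqrt
  have h1 : ∀ k ∈ Finset.univ, ‖ξ k‖ ^ 2 ≤ |ξ k| * ∑ j, |ξ j| := by
    intro k _
    rw [Real.norm_eq_abs, sq]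
    exact mul_le_mul_of_nonneg_left
      (Finset.single_le_sum (f := fun j => |ξ j|) (fun j _ => abs_nonneg _) (Finset.mem_univ k))
      (abs_nonneg _)
  calc ∑ k, ‖ξ k‖ ^ 2 ≤ ∑ k, |ξ k| * ∑ j, |ξ j| := Finset.sum_le_sum h1
    _ = (∑ k, |ξ k|) ^ 2 := by rw [← Finset.sum_mul, sq]

theorem meas_u {d : ℕ} (u : L2d d) : AEStronglyMeasurable (fun ξ : Ed d => u ξ) volume :=
  Lp.aestronglyMeasurable u

theorem meas_coord {d : ℕ} (k : Fin d) :
    AEStronglyMeasurable (fun ξ : Ed d => (2 * Real.pi * Complex.I * (ξ k : ℂ))) volume := by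
  apply Continuous.aestronglyMeasurable
  fun_prop

theorem memLp_coord {d : ℕ} {u : L2d d} (hu : InH1 u) (k : Fin d) :
    MemLp (fun ξ : Ed d => (2 * Real.pi * Complex.I * (ξ k : ℂ)) * (𝓕 u : L2d d) ξ) 2 volume := by
  refine MemLp.of_le_mul (c := 2 * Real.pi) hu ((meas_coord k).mul (meas_u _)) ?_
  filter_upwards with ξ
  rw [norm_mul, norm_mul, norm_mul, norm_mul, norm_mul, Complex.norm_I, Complex.norm_real,
    Complex.norm_real, Complex.norm_real, Real.norm_eq_abs, Real.norm_eq_abs, norm_norm,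
    abs_of_pos Real.pi_pos, mul_one]
  have h1 := abs_coord_le ξ k
  have h2 : ‖(2 : ℂ)‖ = 2 := by norm_num
  rw [h2, mul_assoc (2 * Real.pi)]
  have h3 : 0 ≤ ‖(𝓕 u : L2d d) ξ‖ := norm_nonneg _
  have h4 := Real.pi_pos
  gcongr

theorem ex_grad (hF : S_FT) {d : ℕ} {u : L2d d} (hu : InH1 u) : ∃ g, IsGrad u g := by
  refine ⟨fun k => 𝓕⁻ (memLp_coord hu k).toLp, ?_⟩
  rw [hF d u _]
  intro k
  have h1 : (𝓕 (𝓕⁻ ((memLp_coord hu k).toLp) : L2d d) : L2d d) = (memLp_coord hu k).toLp :=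
    FourierTransform.fourier_fourierInv_eq _
  simp only
  rw [h1]
  exact (memLp_coord hu k).coeFn_toLp

theorem h1_grad (hF : S_FT) {d : ℕ} {u : L2d d} {g : Fin d → L2d d} (hg : IsGrad u g) :
    InH1 u := by
  have h := (hF d u g).1 hg
  unfold InH1
  have hm : AEStronglyMeasurable (fun ξ : Ed d => (‖ξ‖ : ℂ) * (𝓕 u : L2d d) ξ) volume := by
    refine AEStronglyMeasurable.mul ?_ (meas_u _)
    apply Continuous.aestronglyMeasurable
    fun_prop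
  have hs : MemLp (fun ξ : Ed d => ∑ k, ‖(𝓕 (g k) : L2d d) ξ‖) 2 volume := by
    apply memLp_finsetSum
    intro k _
    exact (Lp.memLp (𝓕 (g k) : L2d d)).norm
  refine MemLp.of_le_mul (c := (2 * Real.pi)⁻¹) hs hm ?_
  filter_upwards [ae_all_iff.2 h] with ξ hξ
  have h4 := Real.pi_pos
  have h2 : ‖(2 : ℂ)‖ = 2 := by norm_num
  have h5 : ∀ k, ‖(𝓕 (g k) : L2d d) ξ‖ = 2 * Real.pi * (|ξ k| * ‖(𝓕 u : L2d d) ξ‖) := by
    intro k
    rw [hξ k, norm_mul, norm_mul, norm_mul, norm_mul, Complex.norm_I, Complex.norm_real,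
      Complex.norm_real, Real.norm_eq_abs, Real.norm_eq_abs, abs_of_pos Real.pi_pos, h2]
    ring
  have h6 : ∑ k, ‖(𝓕 (g k) : L2d d) ξ‖ = 2 * Real.pi * ((∑ k, |ξ k|) * ‖(𝓕 u : L2d d) ξ‖) := by
    rw [Finset.sum_mul, Finset.mul_sum]
    exact Finset.sum_congr rfl fun k _ => h5 k
  rw [h6, norm_mul, Complex.norm_real, norm_norm, Real.norm_eq_abs, abs_of_nonneg]
  · rw [← mul_assoc ((2 * Real.pi)⁻¹), inv_mul_cancel₀ (by positivity), one_mul]
    exact mul_le_mul_of_nonneg_right (norm_le_sum ξ) (norm_nonneg _)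
  · have : 0 ≤ ∑ k, |ξ k| := Finset.sum_nonneg fun k _ => abs_nonneg _
    positivity

theorem inner_g (hF : S_FT) {d : ℕ} {u φ : L2d d} {g g' : Fin d → L2d d} (hg : IsGrad u g)
    (hg' : IsGrad φ g') (k : Fin d) :
    Integrable (fun ξ : Ed d => (((2 * Real.pi * ξ k) ^ 2 : ℝ) : ℂ) * (𝓕 u : L2d d) ξ *
      (starRingEnd ℂ) ((𝓕 φ : L2d d) ξ)) volume ∧
    ⟪g' k, g k⟫_ℂ = ∫ ξ : Ed d, (((2 * Real.pi * ξ k) ^ 2 : ℝ) : ℂ) * (𝓕 u : L2d d) ξ *
      (starRingEnd ℂ) ((𝓕 φ : L2d d) ξ) := by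
  have h := (hF d u g).1 hg k
  have h' := (hF d φ g').1 hg' k
  have he : (fun ξ : Ed d => ⟪(𝓕 (g' k) : L2d d) ξ, (𝓕 (g k) : L2d d) ξ⟫_ℂ) =ᵐ[volume]
      fun ξ : Ed d => (((2 * Real.pi * ξ k) ^ 2 : ℝ) : ℂ) * (𝓕 u : L2d d) ξ *
      (starRingEnd ℂ) ((𝓕 φ : L2d d) ξ) := by
    filter_upwards [h, h'] with ξ h1 h2
    rw [h1, h2, RCLike.inner_apply]
    simp only [map_mul, Complex.conj_I, Complex.conj_ofReal, map_ofNat]
    push_cast
    ring_nf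
    rw [Complex.I_sq]
    ring
  have hi := L2.integrable_inner (𝕜 := ℂ) (𝓕 (g' k) : L2d d) (𝓕 (g k) : L2d d)
  refine ⟨hi.congr he, ?_⟩
  rw [← inner_F, L2.inner_def]
  exact integral_congr_ae he

theorem grad (hF : S_FT) : S_GRAD := by
  intro d
  refine ⟨fun u => ⟨fun h => ex_grad hF h, fun ⟨g, hg⟩ => h1_grad hF hg⟩, ?_⟩
  intro u φ g g' hg hg'
  have h1 : ∀ k, ⟪g' k, g k⟫_ℂ = ∫ ξ : Ed d, (((2 * Real.pi * ξ k) ^ 2 : ℝ) : ℂ) *
      (𝓕 u : L2d d) ξ * (starRingEnd ℂ) ((𝓕 φ : L2d d) ξ) := fun k => (inner_g hF hg hg' k).2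
  simp only [h1]
  rw [← integral_finsetSum _ (fun k _ => (inner_g hF hg hg' k).1)]
  unfold dirichlet
  congr 1
  funext ξ
  rw [← Finset.sum_mul, ← Finset.sum_mul]
  congr 2
  rw [← Complex.ofReal_sum]
  congr 1
  rw [mul_pow, EuclideanSpace.norm_sq_eq, Finset.mul_sum]
  refine Finset.sum_congr rfl fun k _ => ?_
  rw [Real.norm_eq_abs, sq_abs]
  ring

theorem ibp (hF : S_FT) : S_IBP := by
  intro d u w g g' hg hg' k
  have h := (hF d u g).1 hg k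
  have h' := (hF d w g').1 hg' k
  rw [← inner_F, ← inner_F u, L2.inner_def, L2.inner_def, ← integral_neg]
  apply integral_congr_ae
  filter_upwards [h, h'] with ξ h1 h2
  rw [h1, h2, RCLike.inner_apply, RCLike.inner_apply]
  simp only [map_mul, Complex.conj_I, Complex.conj_ofReal, map_ofNat]
  ring

end

end Pool.Agent.W63.CP
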